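import Pool.Agent.Helper96_BOX.FixD

/-!
# Row FIX of squad BOX: the final state problem
-/

set_option autoImplicit false

namespace Pool.Agent.BOX.H96

open Set Filter Topology MeasureTheory

noncomputable section

variable {Q : Type} [AddCommGroup Q]

lemma sum_re {w : Q → ℝ} (hw : Wt w) {z : Q → ℂ} {f : Q → ℝ} (hf : Sm w f)
    (hz : ∀ q, ‖z q‖ ≤ f q) : Summable fun q => ‖((z q).re : ℂ)‖ := by
  refine Summable.of_nonneg_of_le (fun q => norm_nonneg _) (fun q => ?_) hf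
  have h1 : ‖((z q).re : ℂ)‖ ≤ ‖f q‖ := by
    rw [Complex.norm_real, Real.norm_eq_abs]
    exact (Complex.abs_re_le_norm _).trans ((hz q).trans (le_abs_self _))
  have h2 := mul_le_mul_of_nonneg_left (hw.1 q) (norm_nonneg (f q))
  linarith

lemma cu_symm (T3S : T3sStmt) {z : Q → ℂ} (hz : Summable fun q => ‖((z q).re : ℂ)‖)
    (e : Q ≃+ Q) (s : Q → ℝ) (hs : ∀ x y v, s (x + y + v) = s x * s y * s v)
    (hze : ∀ k, z (e k) = (s k : ℂ) * z k) (k : Q) : cu z (e k) = (s k : ℂ) * cu z k := by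
  have h1 := (T3S Q ℂ (fun q => ((z q).re : ℂ)) (fun q => ((z q).re : ℂ))
    (fun q => ((z q).re : ℂ)) (fun q => ((z q).re : ℂ)) hz hz hz hz k).2.2.2.2 e
  have h2 : ∀ x, (((z (e x)).re : ℝ) : ℂ) = (s x : ℂ) * ((z x).re : ℂ) := by
    intro x
    rw [hze x, Complex.re_ofReal_mul, Complex.ofReal_mul]
  unfold cu
  rw [← h1]
  unfold T3
  rw [← tsum_mul_left]
  refine tsum_congr fun h => ?_
  simp only [h2]
  have h3 : s k = s h.1 * s h.2 * s (k - h.1 - h.2) := by
    rw [← hs]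
    congr 1
    abel
  rw [h3]
  push_cast
  ring

/-- the symmetry hypotheses -/
structure Sy (om : Q → ℝ) (W : Q → ℝ → ℂ) (T : ℝ) (e : Q ≃+ Q) (s : Q → ℝ) : Prop where
  mul : ∀ x y v, s (x + y + v) = s x * s y * s v
  om : ∀ k, om (e k) = om k
  W : ∀ k, ∀ t > T, W (e k) t = (s k : ℂ) * W k t

variable {w om : Q → ℝ} {W r : Q → ℝ → ℂ} {b c : Q → ℝ} {T M : ℝ}

lemma src_symm (T3S : T3sStmt) (h : Hyp w W r b c T M) {e : Q ≃+ Q} {s : Q → ℝ}
    (hy : Sy om W T e s) (hr : ∀ k, ∀ t > T, r (e k) t = (s k : ℂ) * r k t) {V : Q → ℝ → ℂ}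
    {d : Q → ℝ} (hV : Adm w T M V d) (hVs : ∀ k, ∀ t > T, V (e k) t = (s k : ℂ) * V k t) (k : Q)
    {t : ℝ} (ht : T < t) : src W r V (e k) t = (s k : ℂ) * src W r V k t := by
  have h1 : cu (fun q => W q t + V q t) (e k) = (s k : ℂ) * cu (fun q => W q t + V q t) k := by
    refine cu_symm T3S (sum_re h.wt (sm_scale (sbd h hV).1 (t ^ (-(1 / 2) : ℝ)))
      (fun q => WV_le h hV q ht)) e s hy.mul (fun q => ?_) k
    rw [hy.W q t ht, hVs q t ht]
    ring
  have h2 : cu (fun q => W q t) (e k) = (s k : ℂ) * cu (fun q => W q t) k :=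
    cu_symm T3S (sum_re h.wt (sm_scale h.sb (t ^ (-(1 / 2) : ℝ)))
      (fun q => h.W_le q t ht)) e s hy.mul (fun q => hy.W q t ht) k
  unfold src
  rw [h1, h2, hr k t ht]
  ring

lemma it_symm (T3A : T3aStmt) (T3S : T3sStmt) (IOP : IopStmt) (h : Hyp w W r b c T M)
    {e : Q ≃+ Q} {s : Q → ℝ} (hy : Sy om W T e s)
    (hr : ∀ k, ∀ t > T, r (e k) t = (s k : ℂ) * r k t) (n : ℕ) :
    ∀ k, ∀ t > T, it om W r n (e k) t = (s k : ℂ) * it om W r n k t := by
  induction n with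
  | zero => intro k t _; simp [it]
  | succ n ih =>
    intro k t ht
    have hA := (it_prop (om := om) T3A IOP h n).1
    have e1 : it om W r (n + 1) (e k) t = ∫ s' in Ioi t,
        Complex.exp (Complex.I * ((om (e k) * (t - s') : ℝ) : ℂ)) *
          src W r (it om W r n) (e k) s' := rfl
    have e2 : it om W r (n + 1) k t = ∫ s' in Ioi t,
        Complex.exp (Complex.I * ((om k * (t - s') : ℝ) : ℂ)) *
          src W r (it om W r n) k s' := rfl
    rw [e1, e2, ← integral_const_mul]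
    refine setIntegral_congr_fun measurableSet_Ioi fun s' hs' => ?_
    rw [src_symm T3S h hy hr hA ih k (ht.trans (mem_Ioi.1 hs')), hy.om k]
    ring

lemma Vl_symm (T3A : T3aStmt) (T3S : T3sStmt) (IOP : IopStmt) (h : Hyp w W r b c T M)
    {e : Q ≃+ Q} {s : Q → ℝ} (hy : Sy om W T e s)
    (hr : ∀ k, ∀ t > T, r (e k) t = (s k : ℂ) * r k t) (k : Q) (t : ℝ) (ht : T < t) :
    Vl om W r (e k) t = (s k : ℂ) * Vl om W r k t := by
  unfold Vl
  rw [← tsum_mul_left]
  refine tsum_congr fun n => ?_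
  rw [it_symm T3A T3S IOP h hy hr (n + 1) k t ht, it_symm T3A T3S IOP h hy hr n k t ht]
  ring

lemma r_symm (T3S : T3sStmt) (hw : Wt w) {b : Q → ℝ} (hb : Sm w b) {t1 : ℝ}
    (hW : ∀ k, ∀ t > t1, ‖W k t‖ ≤ b k * t ^ (-(1 / 2) : ℝ))
    (hWd : ∀ k, ∀ t > t1, HasDerivAt (W k) (rhs om (fun q => W q t) k + r k t) t)
    {e : Q ≃+ Q} {s : Q → ℝ} (hy : Sy om W t1 e s) (k : Q) (t : ℝ) (ht : t1 < t) :
    r (e k) t = (s k : ℂ) * r k t := by
  have h1 := hWd (e k) t ht
  have h2 := (hWd k t ht).const_mul (s k : ℂ)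
  have h3 : W (e k) =ᶠ[𝓝 t] fun t => (s k : ℂ) * W k t := by
    filter_upwards [Ioi_mem_nhds ht] with t' ht'
    exact hy.W k t' ht'
  have h4 := h1.unique (h2.congr_of_eventuallyEq h3)
  have h5 : cu (fun q => W q t) (e k) = (s k : ℂ) * cu (fun q => W q t) k :=
    cu_symm T3S (sum_re hw (sm_scale hb (t ^ (-(1 / 2) : ℝ)))
      (fun q => hW q t ht)) e s hy.mul (fun q => hy.W q t ht) k
  rw [rhs_eq, rhs_eq, h5, hy.om k, hy.W k t ht] at h4
  linear_combination h4

theorem fix (T3A : T3aStmt) (T3S : T3sStmt) (IOP : IopStmt) : FixStmt := by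
  intro Q _ w om W r b c t1 M hw ht1 hb hc hM hW hr hrc hWd
  have hb0 : ∀ k, 0 ≤ b k := by
    intro k
    have h1 := (norm_nonneg _).trans (hW k (t1 + 1) (by linarith))
    have h2 : 0 < (t1 + 1) ^ (-(1 / 2) : ℝ) := Real.rpow_pos_of_pos (by linarith) _
    exact nonneg_of_mul_nonneg_left h1 h2
  have hc0 : ∀ k, 0 ≤ c k := by
    intro k
    have h1 := (norm_nonneg _).trans (hr k (t1 + 1) (by linarith))
    have h2 : 0 < (t1 + 1) ^ (-(M + 2)) := Real.rpow_pos_of_pos (by linarith) _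
    exact nonneg_of_mul_nonneg_left h1 h2
  have eb : (fun k => ‖b k‖ * w k) = fun k => b k * w k := by
    funext k
    rw [Real.norm_of_nonneg (hb0 k)]
  have ec : (fun k => ‖c k‖ * w k) = fun k => c k * w k := by
    funext k
    rw [Real.norm_of_nonneg (hc0 k)]
  have sb : Sm w b := by
    unfold Sm
    rw [eb]
    exact hb
  have sc : Sm w c := by
    unfold Sm
    rw [ec]
    exact hc
  have nb : nm w b = ∑' k, b k * w k := by
    unfold nm
    rw [eb]
  have nb0 := nm_nonneg hw b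
  have hT1 : t1 ≤ max t1 (nm w c) := le_max_left _ _
  have hT2 : nm w c ≤ max t1 (nm w c) := le_max_right _ _
  set T := max t1 (nm w c) with hTdef
  have hT0 : 0 < T := by linarith
  rw [← nb] at hM
  have h : Hyp w W r b c T M := by
    refine ⟨hw, by linarith, by nlinarith, hb0, hc0, sb, sc, hM.le, hT2,
      fun k t ht => hW k t (lt_of_le_of_lt hT1 ht), fun k t ht => ?_,
      fun k => (hrc k).mono (Ioi_subset_Ioi hT1), fun k t ht => ?_⟩
    · have h1 := hr k t (lt_of_le_of_lt hT1 ht)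
      have ht0 : 0 < t := hT0.trans ht
      have h2 : t ^ (-(M + 2)) = t ^ (-(M + 1)) * t⁻¹ := by
        rw [← Real.rpow_neg_one t, ← Real.rpow_add ht0]
        congr 1
        ring
      have h3 : t⁻¹ ≤ T⁻¹ := inv_anti₀ hT0 (le_of_lt ht)
      have h4 : 0 ≤ t ^ (-(M + 1)) := Real.rpow_nonneg ht0.le _
      calc ‖r k t‖ ≤ c k * t ^ (-(M + 2)) := h1
        _ = c k * t ^ (-(M + 1)) * t⁻¹ := by rw [h2]; ring
        _ ≤ c k * t ^ (-(M + 1)) * T⁻¹ :=
          mul_le_mul_of_nonneg_left h3 (mul_nonneg (hc0 k) h4)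
        _ = c k / T * t ^ (-(M + 1)) := by ring
    · exact (hWd k t (lt_of_le_of_lt hT1 ht)).continuousAt.continuousWithinAt
  have hVA := Vl_adm (om := om) T3A IOP h
  refine ⟨T, fun k t => W k t + Vl om W r k t, Dm b c T M, hT1, ?_, ?_, ?_, ?_⟩
  · have h1 : (fun k => ‖Dm b c T M k‖ * w k) = fun k => Dm b c T M k * w k := by
      funext k
      rw [Real.norm_of_nonneg (D_nn T3A h k)]
    have h2 := (D_sm T3A h).1
    unfold Sm at h2
    rw [h1] at h2
    exact h2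
  · intro k t ht
    simp only [add_sub_cancel_left]
    exact hVA.le k t ht
  · intro k t ht
    have h1 := hWd k t (lt_of_le_of_lt hT1 ht)
    have h2 := phi_deriv (om := om) T3A IOP h hVA k ht
    have h3 : Vl om W r k =ᶠ[𝓝 t] Phi om W r (Vl om W r) k := by
      filter_upwards [Ioi_mem_nhds ht] with t' ht'
      exact (Vl_fix T3A IOP h k ht').symm
    have h4 := h1.add (h2.congr_of_eventuallyEq h3)
    have h5 : rhs om (fun q => W q t + Vl om W r q t) k =
        rhs om (fun q => W q t) k + r k t + (Complex.I * (om k : ℂ) *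
          Phi om W r (Vl om W r) k t - src W r (Vl om W r) k t) := by
      rw [Vl_fix T3A IOP h k ht, rhs_eq, rhs_eq]
      unfold src
      ring
    rw [h5]
    exact h4
  · intro e s _ hs2 hs3 hs4 k t ht
    have hy1 : Sy om W t1 e s := ⟨hs2, hs3, hs4⟩
    have hy : Sy om W T e s := ⟨hs2, hs3, fun k t ht => hs4 k t (lt_of_le_of_lt hT1 ht)⟩
    have hrs : ∀ k, ∀ t > T, r (e k) t = (s k : ℂ) * r k t := fun k t ht =>
      r_symm T3S hw sb hW hWd hy1 k t (lt_of_le_of_lt hT1 ht)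
    have h1 := Vl_symm T3A T3S IOP h hy hrs k t ht
    simp only
    rw [h1, hy.W k t ht]
    ring

end

end Pool.Agent.BOX.H96
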