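import Pool.Agent.BOX.StmtsG

/-!
# Row FIX of squad BOX, part A: trilinear convolutions
-/

set_option autoImplicit false

namespace Pool.Agent.BOX.H96

open Set Filter Topology MeasureTheory

noncomputable section

variable {Q : Type} [AddCommGroup Q]

/-- the cube of the real part -/
def cu (z : Q → ℂ) (k : Q) : ℂ :=
  T3 (fun q => ((z q).re : ℂ)) (fun q => ((z q).re : ℂ)) (fun q => ((z q).re : ℂ)) k

lemma rhs_eq (om : Q → ℝ) (z : Q → ℂ) (k : Q) :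
    rhs om z k = Complex.I * (om k : ℂ) * z k - cu z k := rfl

lemma t3_sum (T3A : T3aStmt) {B : Type} [NormedCommRing B] [CompleteSpace B] {w : Q → ℝ}
    (hw : Wt w) {F G H : Q → B} (hF : Sm w F) (hG : Sm w G) (hH : Sm w H) (k : Q) :
    Summable fun h : Q × Q => F h.1 * G h.2 * H (k - h.1 - h.2) := by
  refine Summable.of_norm_bounded ((T3A Q B w F G H hw hF hG hH).1 k) fun h => ?_
  calc ‖F h.1 * G h.2 * H (k - h.1 - h.2)‖ ≤ ‖F h.1 * G h.2‖ * ‖H (k - h.1 - h.2)‖ :=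
        norm_mul_le _ _
    _ ≤ ‖F h.1‖ * ‖G h.2‖ * ‖H (k - h.1 - h.2)‖ :=
        mul_le_mul_of_nonneg_right (norm_mul_le _ _) (norm_nonneg _)

lemma sm_mono {B B' : Type} [NormedCommRing B] [NormedCommRing B'] {w : Q → ℝ} (hw : Wt w)
    {F : Q → B} {f : Q → B'} (hf : Sm w f) (h : ∀ q, ‖F q‖ ≤ ‖f q‖) : Sm w F := by
  refine Summable.of_nonneg_of_le (fun q => ?_) (fun q => ?_) hf
  · exact mul_nonneg (norm_nonneg _) (by linarith [hw.1 q])
  · exact mul_le_mul_of_nonneg_right (h q) (by linarith [hw.1 q])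

lemma t3_le (T3A : T3aStmt) {w : Q → ℝ} (hw : Wt w) {F G H : Q → ℂ} {f g h : Q → ℝ}
    (hf : Sm w f) (hg : Sm w g) (hh : Sm w h) (hF : ∀ q, ‖F q‖ ≤ f q) (hG : ∀ q, ‖G q‖ ≤ g q)
    (hH : ∀ q, ‖H q‖ ≤ h q) (k : Q) : ‖T3 F G H k‖ ≤ T3 f g h k := by
  have h1 := t3_sum T3A hw hf hg hh k
  refine tsum_of_norm_bounded h1.hasSum fun x => ?_
  rw [norm_mul, norm_mul]
  have hf0 : ∀ q, 0 ≤ f q := fun q => (norm_nonneg _).trans (hF q)
  have hg0 : ∀ q, 0 ≤ g q := fun q => (norm_nonneg _).trans (hG q)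
  exact mul_le_mul (mul_le_mul (hF _) (hG _) (norm_nonneg _) (hf0 _)) (hH _) (norm_nonneg _)
    (mul_nonneg (hf0 _) (hg0 _))

lemma t3_nonneg {f g h : Q → ℝ} (hf : ∀ q, 0 ≤ f q) (hg : ∀ q, 0 ≤ g q) (hh : ∀ q, 0 ≤ h q)
    (k : Q) : 0 ≤ T3 f g h k :=
  tsum_nonneg fun _ => mul_nonneg (mul_nonneg (hf _) (hg _)) (hh _)

lemma t3_scale (a b c : ℝ) (f g h : Q → ℝ) (k : Q) :
    T3 (fun q => f q * a) (fun q => g q * b) (fun q => h q * c) k = T3 f g h k * (a * b * c) := by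
  unfold T3
  rw [← tsum_mul_right]
  refine tsum_congr fun x => ?_
  ring

/-- the majorant of the difference of the cubes -/
def Gr (β' β e : Q → ℝ) (k : Q) : ℝ := T3 e β β k + T3 β' e β k + T3 β' β' e k

lemma cu_sub (T3A : T3aStmt) {w : Q → ℝ} (hw : Wt w) {x y : Q → ℂ} {β β' e : Q → ℝ}
    (hβ : Sm w β) (hβ' : Sm w β') (he : Sm w e) (hx : ∀ q, ‖x q‖ ≤ β q) (hy : ∀ q, ‖y q‖ ≤ β' q)
    (hxy : ∀ q, ‖x q - y q‖ ≤ e q) (k : Q) : ‖cu x k - cu y k‖ ≤ Gr β' β e k := by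
  have nr : ∀ z : ℂ, ‖((z.re : ℝ) : ℂ)‖ ≤ ‖z‖ := by
    intro z
    rw [Complex.norm_real, Real.norm_eq_abs]
    exact Complex.abs_re_le_norm z
  have hX : ∀ q, ‖((x q).re : ℂ)‖ ≤ β q := fun q => (nr _).trans (hx q)
  have hY : ∀ q, ‖((y q).re : ℂ)‖ ≤ β' q := fun q => (nr _).trans (hy q)
  have hE : ∀ q, ‖((x q - y q).re : ℂ)‖ ≤ e q := fun q => (nr _).trans (hxy q)
  have sX : Sm w fun q => ((x q).re : ℂ) :=
    sm_mono hw hβ fun q => (hX q).trans (le_abs_self _)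
  have sY : Sm w fun q => ((y q).re : ℂ) :=
    sm_mono hw hβ' fun q => (hY q).trans (le_abs_self _)
  have sE : Sm w fun q => ((x q - y q).re : ℂ) :=
    sm_mono hw he fun q => (hE q).trans (le_abs_self _)
  have key : cu x k - cu y k = T3 (fun q => ((x q - y q).re : ℂ)) (fun q => ((x q).re : ℂ))
      (fun q => ((x q).re : ℂ)) k + T3 (fun q => ((y q).re : ℂ)) (fun q => ((x q - y q).re : ℂ))
      (fun q => ((x q).re : ℂ)) k + T3 (fun q => ((y q).re : ℂ)) (fun q => ((y q).re : ℂ))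
      (fun q => ((x q - y q).re : ℂ)) k := by
    have s1 := t3_sum T3A hw sX sX sX k
    have s2 := t3_sum T3A hw sY sY sY k
    have s3 := t3_sum T3A hw sE sX sX k
    have s4 := t3_sum T3A hw sY sE sX k
    have s5 := t3_sum T3A hw sY sY sE k
    unfold cu T3
    rw [← s1.tsum_sub s2, ← s3.tsum_add s4, ← (s3.add s4).tsum_add s5]
    refine tsum_congr fun h => ?_
    simp only [Complex.sub_re, Complex.ofReal_sub]
    ring
  rw [key]
  refine (norm_add₃_le).trans ?_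
  unfold Gr
  have h1 := t3_le T3A hw he hβ hβ hE hX hX k
  have h2 := t3_le T3A hw hβ' he hβ hY hE hX k
  have h3 := t3_le T3A hw hβ' hβ' he hY hY hE k
  linarith

lemma gr_scale (a c : ℝ) (β' β e : Q → ℝ) (k : Q) :
    Gr (fun q => β' q * a) (fun q => β q * a) (fun q => e q * c) k = Gr β' β e k * (a * a * c) := by
  unfold Gr
  rw [t3_scale, t3_scale, t3_scale]
  ring

lemma gr_nonneg {β' β e : Q → ℝ} (h1 : ∀ q, 0 ≤ β' q) (h2 : ∀ q, 0 ≤ β q) (h3 : ∀ q, 0 ≤ e q)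
    (k : Q) : 0 ≤ Gr β' β e k :=
  add_nonneg (add_nonneg (t3_nonneg h3 h2 h2 k) (t3_nonneg h1 h3 h2 k)) (t3_nonneg h1 h1 h3 k)

lemma sm_add {w : Q → ℝ} (hw : Wt w) {f g : Q → ℝ} (hf : Sm w f) (hg : Sm w g) :
    Sm w (fun q => f q + g q) ∧ nm w (fun q => f q + g q) ≤ nm w f + nm w g := by
  have hle : ∀ q, ‖f q + g q‖ * w q ≤ ‖f q‖ * w q + ‖g q‖ * w q := by
    intro q
    rw [← add_mul]
    exact mul_le_mul_of_nonneg_right (norm_add_le _ _) (by linarith [hw.1 q])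
  have hs : Sm w (fun q => f q + g q) := by
    refine Summable.of_nonneg_of_le (fun q => ?_) hle (hf.add hg)
    exact mul_nonneg (norm_nonneg _) (by linarith [hw.1 q])
  refine ⟨hs, ?_⟩
  unfold nm
  rw [← hf.tsum_add hg]
  exact hs.tsum_le_tsum hle (hf.add hg)

lemma nm_nonneg {w : Q → ℝ} (hw : Wt w) (f : Q → ℝ) : 0 ≤ nm w f :=
  tsum_nonneg fun q => mul_nonneg (norm_nonneg _) (by linarith [hw.1 q])

lemma gr_nm (T3A : T3aStmt) {w : Q → ℝ} (hw : Wt w) {β β' e : Q → ℝ}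
    (hβ : Sm w β) (hβ' : Sm w β') (he : Sm w e) {C : ℝ} (h1 : nm w β ≤ C) (h2 : nm w β' ≤ C) :
    Sm w (Gr β' β e) ∧ nm w (Gr β' β e) ≤ 3 * C ^ 2 * nm w e := by
  obtain ⟨_, a1, a2⟩ := T3A Q ℝ w e β β hw he hβ hβ
  obtain ⟨_, b1, b2⟩ := T3A Q ℝ w β' e β hw hβ' he hβ
  obtain ⟨_, c1, c2⟩ := T3A Q ℝ w β' β' e hw hβ' hβ' he
  obtain ⟨s1, n1⟩ := sm_add hw a1 b1
  obtain ⟨s2, n2⟩ := sm_add hw s1 c1
  refine ⟨s2, ?_⟩
  have p1 := nm_nonneg hw β
  have p2 := nm_nonneg hw β'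
  have p3 := nm_nonneg hw e
  have q1 : nm w β * nm w β ≤ C * C := mul_le_mul h1 h1 p1 (p1.trans h1)
  have q2 : nm w β' * nm w β ≤ C * C := mul_le_mul h2 h1 p1 (p2.trans h2)
  have q3 : nm w β' * nm w β' ≤ C * C := mul_le_mul h2 h2 p2 (p2.trans h2)
  have r1 := mul_le_mul_of_nonneg_left q1 p3
  have r2 := mul_le_mul_of_nonneg_left q2 p3
  have r3 := mul_le_mul_of_nonneg_left q3 p3
  have : nm w (Gr β' β e) ≤ nm w (T3 e β β) + nm w (T3 β' e β) + nm w (T3 β' β' e) :=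
    n2.trans (by linarith)
  nlinarith

lemma le_nm {w : Q → ℝ} (hw : Wt w) {f : Q → ℝ} (hf : Sm w f) (k : Q) : f k ≤ nm w f := by
  have h1 : ‖f k‖ * w k ≤ nm w f :=
    hf.le_tsum k fun q _ => mul_nonneg (norm_nonneg _) (by linarith [hw.1 q])
  have h2 : f k ≤ ‖f k‖ := le_abs_self _
  have h3 : ‖f k‖ * 1 ≤ ‖f k‖ * w k := mul_le_mul_of_nonneg_left (hw.1 k) (norm_nonneg _)
  linarith

lemma cu_cont (T3A : T3aStmt) {w : Q → ℝ} (hw : Wt w) {z : Q → ℝ → ℂ} {S : Set ℝ} {f : Q → ℝ}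
    (hf : Sm w f) (hz : ∀ q, ContinuousOn (z q) S) (hb : ∀ q, ∀ t ∈ S, ‖z q t‖ ≤ f q) (k : Q) :
    ContinuousOn (fun t => cu (fun q => z q t) k) S := by
  unfold cu T3
  refine continuousOn_tsum (u := fun h : Q × Q => |f h.1| * |f h.2| * |f (k - h.1 - h.2)|) ?_ ?_ ?_
  · intro h
    have hr : ∀ q, ContinuousOn (fun t => ((z q t).re : ℂ)) S := fun q =>
      Complex.continuous_ofReal.comp_continuousOn (Complex.continuous_re.comp_continuousOn (hz q))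
    exact ((hr _).mul (hr _)).mul (hr _)
  · exact (T3A Q ℝ w f f f hw hf hf hf).1 k
  · intro h t ht
    have nr : ∀ q, ‖((z q t).re : ℂ)‖ ≤ |f q| := by
      intro q
      rw [Complex.norm_real, Real.norm_eq_abs]
      exact (Complex.abs_re_le_norm _).trans ((hb q t ht).trans (le_abs_self _))
    rw [norm_mul, norm_mul]
    exact mul_le_mul (mul_le_mul (nr _) (nr _) (norm_nonneg _) (abs_nonneg _)) (nr _)
      (norm_nonneg _) (mul_nonneg (abs_nonneg _) (abs_nonneg _))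

end

end Pool.Agent.BOX.H96
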