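import Pool.Agent.Helper96_BOX.FixA

/-!
# Row FIX of squad BOX, part B: the integral operator
-/

set_option autoImplicit false

namespace Pool.Agent.BOX.H96

open Set Filter Topology MeasureTheory

noncomputable section

variable {Q : Type} [AddCommGroup Q]

/-- the source term -/
def src (W r V : Q → ℝ → ℂ) (k : Q) (s : ℝ) : ℂ :=
  cu (fun q => W q s + V q s) k - cu (fun q => W q s) k + r k s

/-- the integral operator -/
def Phi (om : Q → ℝ) (W r V : Q → ℝ → ℂ) (k : Q) (t : ℝ) : ℂ :=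
  ∫ s in Ioi t, Complex.exp (Complex.I * ((om k * (t - s) : ℝ) : ℂ)) * src W r V k s

/-- the hypotheses -/
structure Hyp (w : Q → ℝ) (W r : Q → ℝ → ℂ) (b c : Q → ℝ) (T M : ℝ) : Prop where
  wt : Wt w
  one : 1 ≤ T
  M1 : 12 ≤ M
  b0 : ∀ k, 0 ≤ b k
  c0 : ∀ k, 0 ≤ c k
  sb : Sm w b
  sc : Sm w c
  hM : 12 * (nm w b + 1) ^ 2 ≤ M
  hT : nm w c ≤ T
  W_le : ∀ k, ∀ t > T, ‖W k t‖ ≤ b k * t ^ (-(1 / 2) : ℝ)
  r_le : ∀ k, ∀ t > T, ‖r k t‖ ≤ c k / T * t ^ (-(M + 1))
  r_cont : ∀ k, ContinuousOn (r k) (Ioi T)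
  W_cont : ∀ k, ContinuousOn (W k) (Ioi T)

/-- `V` is admissible with the majorant `d` -/
structure Adm (w : Q → ℝ) (T M : ℝ) (V : Q → ℝ → ℂ) (d : Q → ℝ) : Prop where
  cont : ∀ k, ContinuousOn (V k) (Ioi T)
  le : ∀ k, ∀ t > T, ‖V k t‖ ≤ d k * t ^ (-M)
  nn : ∀ k, 0 ≤ d k
  sm : Sm w d
  nm : nm w d ≤ 1

variable {w om : Q → ℝ} {W r : Q → ℝ → ℂ} {b c : Q → ℝ} {T M : ℝ}

omit [AddCommGroup Q] in
lemma adm_zero (w : Q → ℝ) (T M : ℝ) : Adm w T M (fun _ _ => (0 : ℂ)) (fun _ => 0) := by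
  refine ⟨fun k => continuousOn_const, fun k t _ => by simp, fun k => le_rfl, ?_, ?_⟩
  · simp [Sm, summable_zero]
  · simp [BOX.nm]

lemma rpow_half_le_one {t : ℝ} (ht : 1 ≤ t) : t ^ (-(1 / 2) : ℝ) ≤ 1 :=
  Real.rpow_le_one_of_one_le_of_nonpos ht (by norm_num)

lemma WV_le (h : Hyp w W r b c T M) {V : Q → ℝ → ℂ} {d : Q → ℝ} (hV : Adm w T M V d) (q : Q)
    {t : ℝ} (ht : T < t) : ‖W q t + V q t‖ ≤ (b q + d q) * t ^ (-(1 / 2) : ℝ) := by
  have h1 := h.W_le q t ht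
  have h2 := hV.le q t ht
  have h3 : t ^ (-M) ≤ t ^ (-(1 / 2) : ℝ) :=
    Real.rpow_le_rpow_of_exponent_le (by linarith [h.one]) (by linarith [h.M1])
  have h4 := mul_le_mul_of_nonneg_left h3 (hV.nn q)
  have h5 := norm_add_le (W q t) (V q t)
  linarith

lemma rpow_prod {t : ℝ} (ht : 0 < t) (M : ℝ) :
    t ^ (-(1 / 2) : ℝ) * t ^ (-(1 / 2) : ℝ) * t ^ (-M) = t ^ (-(M + 1)) := by
  rw [← Real.rpow_add ht, ← Real.rpow_add ht]
  congr 1
  ring

lemma sbd (h : Hyp w W r b c T M) {V : Q → ℝ → ℂ} {d : Q → ℝ} (hV : Adm w T M V d) :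
    Sm w (fun q => b q + d q) ∧ nm w (fun q => b q + d q) ≤ nm w b + 1 := by
  obtain ⟨h1, h2⟩ := sm_add h.wt h.sb hV.sm
  exact ⟨h1, h2.trans (by linarith [hV.nm])⟩

omit [AddCommGroup Q] in
lemma sm_scale {f : Q → ℝ} (hf : Sm w f) (a : ℝ) : Sm w (fun q => f q * a) := by
  have : (fun q => ‖f q * a‖ * w q) = fun q => (‖f q‖ * w q) * ‖a‖ := by
    funext q
    rw [norm_mul]
    ring
  unfold Sm
  rw [this]
  exact hf.mul_right _

lemma cu_diff (T3A : T3aStmt) (h : Hyp w W r b c T M) {V V' : Q → ℝ → ℂ} {d d' e : Q → ℝ}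
    (hV : Adm w T M V d) (hV' : Adm w T M V' d') (he : Sm w e) {t : ℝ} (ht : T < t)
    (hd : ∀ q, ‖V q t - V' q t‖ ≤ e q * t ^ (-M)) (k : Q) :
    ‖cu (fun q => W q t + V q t) k - cu (fun q => W q t + V' q t) k‖ ≤
      Gr (fun q => b q + d' q) (fun q => b q + d q) e k * t ^ (-(M + 1)) := by
  have ht0 : 0 < t := by linarith [h.one]
  have key := cu_sub T3A h.wt (x := fun q => W q t + V q t) (y := fun q => W q t + V' q t)
    (sm_scale (sbd h hV).1 (t ^ (-(1 / 2) : ℝ))) (sm_scale (sbd h hV').1 (t ^ (-(1 / 2) : ℝ)))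
    (sm_scale he (t ^ (-M))) (fun q => WV_le h hV q ht) (fun q => WV_le h hV' q ht)
    (fun q => by
      have : W q t + V q t - (W q t + V' q t) = V q t - V' q t := by ring
      rw [this]
      exact hd q) k
  rw [gr_scale, rpow_prod ht0] at key
  exact key

lemma src_sub (W r V V' : Q → ℝ → ℂ) (k : Q) (t : ℝ) : src W r V k t - src W r V' k t =
    cu (fun q => W q t + V q t) k - cu (fun q => W q t + V' q t) k := by
  unfold src
  ring

lemma src_le (T3A : T3aStmt) (h : Hyp w W r b c T M) {V : Q → ℝ → ℂ} {d : Q → ℝ}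
    (hV : Adm w T M V d) (k : Q) {t : ℝ} (ht : T < t) :
    ‖src W r V k t‖ ≤ (Gr (fun q => b q + 0) (fun q => b q + d q) d k + c k / T) *
      t ^ (-(M + 1)) := by
  have h1 := cu_diff T3A h hV (adm_zero w T M) hV.sm ht (fun q => by
    rw [sub_zero]
    exact hV.le q t ht) k
  have h2 := h.r_le k t ht
  simp only [add_zero] at h1 ⊢
  unfold src
  have h3 := norm_add_le (cu (fun q => W q t + V q t) k - cu (fun q => W q t) k) (r k t)
  rw [add_mul]
  linarith

lemma src_cont (T3A : T3aStmt) (h : Hyp w W r b c T M) {V : Q → ℝ → ℂ} {d : Q → ℝ}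
    (hV : Adm w T M V d) (k : Q) : ContinuousOn (src W r V k) (Ioi T) := by
  have h1 : ContinuousOn (fun t => cu (fun q => W q t + V q t) k) (Ioi T) := by
    refine cu_cont T3A h.wt (z := fun q t => W q t + V q t) (sbd h hV).1
      (fun q => (h.W_cont q).add (hV.cont q)) (fun q t ht => ?_) k
    have h2 := WV_le h hV q ht
    have h3 : (b q + d q) * t ^ (-(1 / 2) : ℝ) ≤ (b q + d q) * 1 :=
      mul_le_mul_of_nonneg_left (rpow_half_le_one (by linarith [h.one, mem_Ioi.1 ht]))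
        (add_nonneg (h.b0 q) (hV.nn q))
    linarith
  have h2 : ContinuousOn (fun t => cu (fun q => W q t) k) (Ioi T) := by
    refine cu_cont T3A h.wt h.sb h.W_cont (fun q t ht => ?_) k
    have h2 := h.W_le q t ht
    have h3 : b q * t ^ (-(1 / 2) : ℝ) ≤ b q * 1 :=
      mul_le_mul_of_nonneg_left (rpow_half_le_one (by linarith [h.one, mem_Ioi.1 ht])) (h.b0 q)
    linarith
  exact (h1.sub h2).add (h.r_cont k)

lemma int_ok {ω T M C : ℝ} {f : ℝ → ℂ} (hT : 0 < T) (hM : 0 < M) (hf : ContinuousOn f (Ioi T))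
    (hb : ∀ t > T, ‖f t‖ ≤ C * t ^ (-(M + 1))) {t : ℝ} (ht : T < t) :
    IntegrableOn (fun s => Complex.exp (Complex.I * ((ω * (t - s) : ℝ) : ℂ)) * f s) (Ioi t) := by
  have h1 : IntegrableOn (fun s : ℝ => C * s ^ (-(M + 1))) (Ioi t) :=
    (integrableOn_Ioi_rpow_of_lt (by linarith) (by linarith)).const_mul C
  refine Integrable.mono' h1 ?_ ?_
  · refine ContinuousOn.aestronglyMeasurable ?_ measurableSet_Ioi
    refine ContinuousOn.mul ?_ (hf.mono (Ioi_subset_Ioi ht.le))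
    exact Continuous.continuousOn (by fun_prop)
  · filter_upwards [self_mem_ae_restrict (μ := volume) (measurableSet_Ioi (a := t))] with s hs
    rw [norm_mul, mul_comm Complex.I, Complex.norm_exp_ofReal_mul_I, one_mul]
    exact hb s (ht.trans hs)

lemma phi_sub (T3A : T3aStmt) (IOP : IopStmt) (h : Hyp w W r b c T M) {V V' : Q → ℝ → ℂ}
    {d d' e : Q → ℝ} (hV : Adm w T M V d) (hV' : Adm w T M V' d') (he : Sm w e)
    (hd : ∀ q, ∀ t > T, ‖V q t - V' q t‖ ≤ e q * t ^ (-M)) (k : Q) {t : ℝ} (ht : T < t) :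
    ‖Phi om W r V k t - Phi om W r V' k t‖ ≤
      Gr (fun q => b q + d' q) (fun q => b q + d q) e k / M * t ^ (-M) := by
  have hT0 : 0 < T := by linarith [h.one]
  have hM0 : 0 < M := by linarith [h.M1]
  have i1 := int_ok (ω := om k) hT0 hM0 (src_cont T3A h hV k) (fun t ht => src_le T3A h hV k ht) ht
  have i2 := int_ok (ω := om k) hT0 hM0 (src_cont T3A h hV' k) (fun t ht => src_le T3A h hV' k ht)
    ht
  have e1 : Phi om W r V k t - Phi om W r V' k t = ∫ s in Ioi t,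
      Complex.exp (Complex.I * ((om k * (t - s) : ℝ) : ℂ)) * (src W r V k s - src W r V' k s) := by
    unfold Phi
    rw [← integral_sub i1 i2]
    refine integral_congr_ae (Eventually.of_forall fun s => ?_)
    simp only
    ring
  rw [e1]
  exact (IOP (om k) T M _ (fun s => src W r V k s - src W r V' k s) hT0 hM0
    ((src_cont T3A h hV k).sub (src_cont T3A h hV' k)) (fun s hs => by
      rw [src_sub]
      exact cu_diff T3A h hV hV' he hs (fun q => hd q s hs) k) t ht).1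

lemma phi_deriv (T3A : T3aStmt) (IOP : IopStmt) (h : Hyp w W r b c T M) {V : Q → ℝ → ℂ}
    {d : Q → ℝ} (hV : Adm w T M V d) (k : Q) {t : ℝ} (ht : T < t) :
    HasDerivAt (Phi om W r V k)
      (Complex.I * (om k : ℂ) * Phi om W r V k t - src W r V k t) t :=
  (IOP (om k) T M _ (src W r V k) (by linarith [h.one]) (by linarith [h.M1])
    (src_cont T3A h hV k) (fun _ hs => src_le T3A h hV k hs) t ht).2

lemma phi_zero (T3A : T3aStmt) (IOP : IopStmt) (h : Hyp w W r b c T M) (k : Q) {t : ℝ}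
    (ht : T < t) : ‖Phi om W r (fun _ _ => 0) k t‖ ≤ c k / T / M * t ^ (-M) := by
  refine (IOP (om k) T M (c k / T) (src W r (fun _ _ => 0) k) (by linarith [h.one])
    (by linarith [h.M1]) (src_cont T3A h (adm_zero w T M) k) (fun s hs => ?_) t ht).1
  have : src W r (fun _ _ => 0) k s = r k s := by
    unfold src
    simp
  rw [this]
  exact h.r_le k s hs

end

end Pool.Agent.BOX.H96
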