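import Pool.Agent.Helper96_BOX.FixB

/-!
# Row FIX of squad BOX, part C: the iteration
-/

set_option autoImplicit false

namespace Pool.Agent.BOX.H96

open Set Filter Topology MeasureTheory

noncomputable section

variable {Q : Type} [AddCommGroup Q]

/-- the majorants -/
def maj (b c : Q → ℝ) (T M : ℝ) : ℕ → (Q → ℝ) × (Q → ℝ)
  | 0 => (fun _ => 0, fun k => c k / T / M)
  | n + 1 => (fun k => (maj b c T M n).1 k + (maj b c T M n).2 k,
      fun k => Gr (fun q => b q + (maj b c T M n).1 q)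
        (fun q => b q + ((maj b c T M n).1 q + (maj b c T M n).2 q)) (maj b c T M n).2 k / M)

/-- the approximations -/
def it (om : Q → ℝ) (W r : Q → ℝ → ℂ) : ℕ → Q → ℝ → ℂ
  | 0 => fun _ _ => 0
  | n + 1 => Phi om W r (it om W r n)

variable {w om : Q → ℝ} {W r : Q → ℝ → ℂ} {b c : Q → ℝ} {T M : ℝ}

omit [AddCommGroup Q] in
lemma nm_div {f : Q → ℝ} (hf : Sm w f) {a : ℝ} (ha : 0 < a) :
    Sm w (fun k => f k / a) ∧ nm w (fun k => f k / a) = nm w f / a := by
  have : (fun q => ‖f q / a‖ * w q) = fun q => (‖f q‖ * w q) / a := by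
    funext q
    rw [norm_div, Real.norm_of_nonneg ha.le]
    ring
  unfold Sm nm
  rw [this]
  exact ⟨hf.div_const _, tsum_div_const⟩

/-- the properties of the majorants -/
structure MP (w : Q → ℝ) (d e : Q → ℝ) (n : ℕ) : Prop where
  dn : ∀ k, 0 ≤ d k
  en : ∀ k, 0 ≤ e k
  ds : Sm w d
  es : Sm w e
  dm : nm w d ≤ 1 / 3 * (1 - (1 / 4) ^ n)
  em : nm w e ≤ (1 / 4) ^ (n + 1)

omit [AddCommGroup Q] in
lemma MP.dm1 {d e : Q → ℝ} {n : ℕ} (h : MP w d e n) : nm w d ≤ 1 := by
  have h1 := h.dm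
  have h2 : (0 : ℝ) ≤ (1 / 4) ^ n := by positivity
  linarith

lemma maj_prop (T3A : T3aStmt) (h : Hyp w W r b c T M) (n : ℕ) :
    MP w (maj b c T M n).1 (maj b c T M n).2 n := by
  have hT0 : 0 < T := by linarith [h.one]
  have hM0 : 0 < M := by linarith [h.M1]
  induction n with
  | zero =>
    obtain ⟨s1, n1⟩ := nm_div h.sc hT0
    obtain ⟨s2, n2⟩ := nm_div s1 hM0
    refine ⟨fun _ => le_rfl, fun k => ?_, ?_, ?_, ?_, ?_⟩
    · exact div_nonneg (div_nonneg (h.c0 k) hT0.le) hM0.le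
    · simp [maj, Sm, summable_zero]
    · exact s2
    · simp [maj, BOX.nm]
    · have e1 : nm w (maj b c T M 0).2 = nm w (fun k => c k / T / M) := rfl
      rw [e1, n2, n1]
      have h1 : nm w c / T ≤ 1 := (div_le_one hT0).2 h.hT
      have h2 : nm w c / T / M ≤ 1 / M := div_le_div_of_nonneg_right h1 hM0.le
      have h3 : 1 / M ≤ 1 / 12 := one_div_le_one_div_of_le (by norm_num) h.M1
      have h4 : ((1 : ℝ) / 4) ^ (0 + 1) = 1 / 4 := by norm_num
      rw [h4]
      linarith
  | succ n ih =>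
    obtain ⟨s1, n1⟩ := sm_add h.wt ih.ds ih.es
    have hd1 : nm w (fun q => (maj b c T M n).1 q + (maj b c T M n).2 q) ≤
        1 / 3 * (1 - (1 / 4) ^ (n + 1)) := by
      have h1 := ih.dm
      have h2 := ih.em
      rw [pow_succ] at h2 ⊢
      linarith
    have hd2 : nm w (fun q => (maj b c T M n).1 q + (maj b c T M n).2 q) ≤ 1 := by
      have h2 : (0 : ℝ) ≤ (1 / 4) ^ (n + 1) := by positivity
      linarith
    obtain ⟨s2, n2⟩ := sm_add h.wt h.sb ih.ds
    obtain ⟨s3, n3⟩ := sm_add h.wt h.sb s1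
    obtain ⟨s4, n4⟩ := gr_nm T3A h.wt (C := nm w b + 1) s3 s2 ih.es (by linarith)
      (by linarith [ih.dm1])
    obtain ⟨s5, n5⟩ := nm_div s4 hM0
    refine ⟨fun k => add_nonneg (ih.dn k) (ih.en k), fun k => ?_, s1, s5, hd1, ?_⟩
    · refine div_nonneg (gr_nonneg (fun q => add_nonneg (h.b0 q) (ih.dn q))
        (fun q => add_nonneg (h.b0 q) (add_nonneg (ih.dn q) (ih.en q))) ih.en k) hM0.le
    · have e1 : nm w (maj b c T M (n + 1)).2 = _ := n5
      rw [e1, div_le_iff₀ hM0]
      have h1 := ih.em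
      have h2 := nm_nonneg h.wt (maj b c T M n).2
      have h3 := h.hM
      have h5 : 3 * (nm w b + 1) ^ 2 * nm w (maj b c T M n).2 ≤
          M / 4 * nm w (maj b c T M n).2 := mul_le_mul_of_nonneg_right (by linarith) h2
      have h6 : M / 4 * nm w (maj b c T M n).2 ≤ M / 4 * (1 / 4) ^ (n + 1) :=
        mul_le_mul_of_nonneg_left h1 (by linarith)
      have h7 : ((1 : ℝ) / 4) ^ (n + 1 + 1) * M = M / 4 * (1 / 4) ^ (n + 1) := by
        rw [pow_succ]
        ring
      rw [h7]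
      linarith

lemma it_prop (T3A : T3aStmt) (IOP : IopStmt) (h : Hyp w W r b c T M) (n : ℕ) :
    Adm w T M (it om W r n) (maj b c T M n).1 ∧
    ∀ k, ∀ t > T, ‖it om W r (n + 1) k t - it om W r n k t‖ ≤ (maj b c T M n).2 k * t ^ (-M) := by
  induction n with
  | zero =>
    refine ⟨adm_zero w T M, fun k t ht => ?_⟩
    have h1 := phi_zero (om := om) T3A IOP h k ht
    have e1 : it om W r (0 + 1) k t - it om W r 0 k t = Phi om W r (fun _ _ => 0) k t := by
      simp [it]
    rw [e1]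
    exact h1
  | succ n ih =>
    obtain ⟨ih1, ih2⟩ := ih
    have hp := maj_prop T3A h (n + 1)
    have hp0 := maj_prop T3A h n
    have hA : Adm w T M (it om W r (n + 1)) (maj b c T M (n + 1)).1 := by
      refine ⟨fun k t ht => ?_, fun k t ht => ?_, hp.dn, hp.ds, hp.dm1⟩
      · exact (phi_deriv T3A IOP h ih1 k ht).continuousAt.continuousWithinAt
      · have h1 := ih1.le k t ht
        have h2 := ih2 k t ht
        have h3 : it om W r (n + 1) k t =
            it om W r n k t + (it om W r (n + 1) k t - it om W r n k t) := by ring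
        have h4 : (maj b c T M (n + 1)).1 k = (maj b c T M n).1 k + (maj b c T M n).2 k := rfl
        rw [h3, h4, add_mul]
        exact (norm_add_le _ _).trans (add_le_add h1 h2)
    refine ⟨hA, fun k t ht => ?_⟩
    exact phi_sub T3A IOP h hA ih1 hp0.es ih2 k ht

lemma d_eq (b c : Q → ℝ) (T M : ℝ) (n : ℕ) (k : Q) :
    (maj b c T M n).1 k = ∑ i ∈ Finset.range n, (maj b c T M i).2 k := by
  induction n with
  | zero => simp [maj]
  | succ n ih => rw [Finset.sum_range_succ, ← ih]; rfl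

end

end Pool.Agent.BOX.H96
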