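import Pool.Agent.Helper96_BOX.FixC

/-!
# Row FIX of squad BOX, part D: the limit of the iteration
-/

set_option autoImplicit false

namespace Pool.Agent.BOX.H96

open Set Filter Topology MeasureTheory

noncomputable section

variable {Q : Type} [AddCommGroup Q]

/-- the limit majorant -/
def Dm (b c : Q → ℝ) (T M : ℝ) (k : Q) : ℝ := ∑' n, (maj b c T M n).2 k

/-- the limit -/
def Vl (om : Q → ℝ) (W r : Q → ℝ → ℂ) (k : Q) (t : ℝ) : ℂ :=
  ∑' n, (it om W r (n + 1) k t - it om W r n k t)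

variable {w om : Q → ℝ} {W r : Q → ℝ → ℂ} {b c : Q → ℝ} {T M : ℝ}

lemma e_sum (T3A : T3aStmt) (h : Hyp w W r b c T M) (k : Q) :
    Summable fun n => (maj b c T M n).2 k := by
  have hg : Summable fun n : ℕ => ((1 : ℝ) / 4) ^ (n + 1) :=
    (summable_nat_add_iff 1).2 (summable_geometric_of_lt_one (by norm_num) (by norm_num))
  refine Summable.of_nonneg_of_le (fun n => (maj_prop T3A h n).en k) (fun n => ?_) hg
  exact (le_nm h.wt (maj_prop T3A h n).es k).trans (maj_prop T3A h n).em

lemma d_tend (T3A : T3aStmt) (h : Hyp w W r b c T M) (k : Q) :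
    Tendsto (fun n => (maj b c T M n).1 k) atTop (𝓝 (Dm b c T M k)) := by
  have : (fun n => (maj b c T M n).1 k) = fun n => ∑ i ∈ Finset.range n, (maj b c T M i).2 k := by
    funext n
    exact d_eq b c T M n k
  rw [this]
  exact (e_sum T3A h k).hasSum.tendsto_sum_nat

lemma d_le (T3A : T3aStmt) (h : Hyp w W r b c T M) (n : ℕ) (k : Q) :
    (maj b c T M n).1 k ≤ Dm b c T M k := by
  rw [d_eq]
  exact (e_sum T3A h k).sum_le_tsum _ fun i _ => (maj_prop T3A h i).en k

lemma D_nn (T3A : T3aStmt) (h : Hyp w W r b c T M) (k : Q) : 0 ≤ Dm b c T M k :=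
  tsum_nonneg fun n => (maj_prop T3A h n).en k

lemma D_sm (T3A : T3aStmt) (h : Hyp w W r b c T M) :
    Sm w (Dm b c T M) ∧ nm w (Dm b c T M) ≤ 1 := by
  have hw0 : ∀ q, 0 ≤ w q := fun q => by linarith [h.wt.1 q]
  have key : ∀ s : Finset Q, ∑ k ∈ s, ‖Dm b c T M k‖ * w k ≤ 1 := by
    intro s
    have ht : Tendsto (fun n => ∑ k ∈ s, ‖(maj b c T M n).1 k‖ * w k) atTop
        (𝓝 (∑ k ∈ s, ‖Dm b c T M k‖ * w k)) :=
      tendsto_finsetSum s fun k _ => ((d_tend T3A h k).norm).mul_const _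
    refine le_of_tendsto' ht fun n => ?_
    have hp := maj_prop T3A h n
    exact (hp.ds.sum_le_tsum s fun q _ => mul_nonneg (norm_nonneg _) (hw0 q)).trans hp.dm1
  have hs : Sm w (Dm b c T M) :=
    summable_of_sum_le (fun q => mul_nonneg (norm_nonneg _) (hw0 q)) key
  exact ⟨hs, hs.tsum_le_of_sum_le key⟩

lemma rpowM_le_one (h : Hyp w W r b c T M) {t : ℝ} (ht : T < t) : t ^ (-M) ≤ 1 :=
  Real.rpow_le_one_of_one_le_of_nonpos (by linarith [h.one]) (by linarith [h.M1])

lemma diff_le (T3A : T3aStmt) (IOP : IopStmt) (h : Hyp w W r b c T M) (n : ℕ) (k : Q) {t : ℝ}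
    (ht : T < t) : ‖it om W r (n + 1) k t - it om W r n k t‖ ≤ (maj b c T M n).2 k := by
  refine ((it_prop (om := om) T3A IOP h n).2 k t ht).trans ?_
  have h1 := mul_le_mul_of_nonneg_left (rpowM_le_one h ht) ((maj_prop T3A h n).en k)
  linarith

lemma it_tend (T3A : T3aStmt) (IOP : IopStmt) (h : Hyp w W r b c T M) (k : Q) {t : ℝ}
    (ht : T < t) : Tendsto (fun n => it om W r n k t) atTop (𝓝 (Vl om W r k t)) := by
  have hs : Summable fun n => it om W r (n + 1) k t - it om W r n k t :=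
    Summable.of_norm_bounded (e_sum T3A h k) fun n => diff_le T3A IOP h n k ht
  have h1 := hs.hasSum.tendsto_sum_nat
  have h2 : (fun n => ∑ i ∈ Finset.range n, (it om W r (i + 1) k t - it om W r i k t)) =
      fun n => it om W r n k t := by
    funext n
    rw [Finset.sum_range_sub (fun i => it om W r i k t)]
    simp [it]
  rw [h2] at h1
  exact h1

lemma it_bound (T3A : T3aStmt) (IOP : IopStmt) (h : Hyp w W r b c T M) (k : Q) {t : ℝ}
    (ht : T < t) {n m : ℕ} (hnm : n ≤ m) : ‖it om W r m k t - it om W r n k t‖ ≤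
      ((maj b c T M m).1 k - (maj b c T M n).1 k) * t ^ (-M) := by
  induction m, hnm using Nat.le_induction with
  | base => simp
  | succ m hm ih =>
    have h1 := (it_prop (om := om) T3A IOP h m).2 k t ht
    have h2 : it om W r (m + 1) k t - it om W r n k t =
        (it om W r (m + 1) k t - it om W r m k t) + (it om W r m k t - it om W r n k t) := by ring
    have h3 : (maj b c T M (m + 1)).1 k = (maj b c T M m).1 k + (maj b c T M m).2 k := rfl
    rw [h2, h3]
    refine (norm_add_le _ _).trans ?_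
    linarith

lemma Vl_sub_le (T3A : T3aStmt) (IOP : IopStmt) (h : Hyp w W r b c T M) (k : Q) {t : ℝ}
    (ht : T < t) (n : ℕ) : ‖Vl om W r k t - it om W r n k t‖ ≤
      (Dm b c T M k - (maj b c T M n).1 k) * t ^ (-M) := by
  have h1 : Tendsto (fun m => ‖it om W r m k t - it om W r n k t‖) atTop
      (𝓝 ‖Vl om W r k t - it om W r n k t‖) := ((it_tend T3A IOP h k ht).sub_const _).norm
  refine le_of_tendsto h1 ?_
  filter_upwards [eventually_ge_atTop n] with m hm
  refine (it_bound T3A IOP h k ht hm).trans ?_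
  refine mul_le_mul_of_nonneg_right ?_ (Real.rpow_nonneg (by linarith [h.one]) _)
  linarith [d_le T3A h m k]

lemma Vl_adm (T3A : T3aStmt) (IOP : IopStmt) (h : Hyp w W r b c T M) :
    Adm w T M (Vl om W r) (Dm b c T M) := by
  refine ⟨fun k => ?_, fun k t ht => ?_, D_nn T3A h, (D_sm T3A h).1, (D_sm T3A h).2⟩
  · refine continuousOn_tsum (u := fun n => (maj b c T M n).2 k) (fun n => ?_) (e_sum T3A h k)
      (fun n t ht => diff_le T3A IOP h n k ht)
    exact ((it_prop (om := om) T3A IOP h (n + 1)).1.cont k).sub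
      ((it_prop (om := om) T3A IOP h n).1.cont k)
  · have h1 := Vl_sub_le (om := om) T3A IOP h k ht 0
    simpa [it, maj] using h1

lemma gr_tend (T3A : T3aStmt) (h : Hyp w W r b c T M) (k : Q) :
    Tendsto (fun n => Gr (fun q => b q + (maj b c T M n).1 q) (fun q => b q + Dm b c T M q)
      (fun q => Dm b c T M q - (maj b c T M n).1 q) k) atTop (𝓝 0) := by
  have hw0 : ∀ q, 0 ≤ w q := fun q => by linarith [h.wt.1 q]
  obtain ⟨sD, nD⟩ := D_sm T3A h
  have se : ∀ n, Sm w (fun q => Dm b c T M q - (maj b c T M n).1 q) := by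
    intro n
    refine sm_mono h.wt sD fun q => ?_
    rw [Real.norm_of_nonneg (D_nn T3A h q),
      Real.norm_of_nonneg (sub_nonneg.2 (d_le T3A h n q))]
    linarith [(maj_prop T3A h n).dn q]
  have ht : Tendsto (fun n => nm w (fun q => Dm b c T M q - (maj b c T M n).1 q)) atTop (𝓝 0) := by
    have h0 : (0 : ℝ) = ∑' q : Q, (0 : ℝ) := by simp
    rw [h0]
    refine tendsto_tsum_of_dominated_convergence (bound := fun q => ‖Dm b c T M q‖ * w q) sD
      (fun q => ?_) (Eventually.of_forall fun n q => ?_)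
    · have h1 := (((d_tend T3A h q).const_sub (Dm b c T M q)).norm).mul_const (w q)
      simpa using h1
    · rw [Real.norm_of_nonneg (mul_nonneg (norm_nonneg _) (hw0 q))]
      refine mul_le_mul_of_nonneg_right ?_ (hw0 q)
      rw [Real.norm_of_nonneg (D_nn T3A h q),
        Real.norm_of_nonneg (sub_nonneg.2 (d_le T3A h n q))]
      linarith [(maj_prop T3A h n).dn q]
  have ht2 := ht.const_mul (3 * (nm w b + 1) ^ 2)
  rw [mul_zero] at ht2
  refine squeeze_zero (fun n => ?_) (fun n => ?_) ht2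
  · exact gr_nonneg (fun q => add_nonneg (h.b0 q) ((maj_prop T3A h n).dn q))
      (fun q => add_nonneg (h.b0 q) (D_nn T3A h q)) (fun q => sub_nonneg.2 (d_le T3A h n q)) k
  · obtain ⟨s2, n2⟩ := sm_add h.wt h.sb (maj_prop T3A h n).ds
    obtain ⟨s3, n3⟩ := sm_add h.wt h.sb sD
    obtain ⟨s4, n4⟩ := gr_nm T3A h.wt (C := nm w b + 1) s3 s2 (se n) (by linarith)
      (by linarith [(maj_prop T3A h n).dm1])
    exact (le_nm h.wt s4 k).trans n4

lemma Vl_fix (T3A : T3aStmt) (IOP : IopStmt) (h : Hyp w W r b c T M) (k : Q) {t : ℝ}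
    (ht : T < t) : Phi om W r (Vl om W r) k t = Vl om W r k t := by
  have h1 : Tendsto (fun n => it om W r (n + 1) k t) atTop (𝓝 (Vl om W r k t)) :=
    (it_tend T3A IOP h k ht).comp (tendsto_add_atTop_nat 1)
  have h2 : Tendsto (fun n => it om W r (n + 1) k t) atTop
      (𝓝 (Phi om W r (Vl om W r) k t)) := by
    rw [tendsto_iff_norm_sub_tendsto_zero]
    have h3 := ((gr_tend T3A h k).div_const M).mul_const (t ^ (-M))
    simp only [zero_div, zero_mul] at h3
    refine squeeze_zero (fun n => norm_nonneg _) (fun n => ?_) h3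
    rw [norm_sub_rev]
    refine phi_sub T3A IOP h (Vl_adm T3A IOP h) (it_prop (om := om) T3A IOP h n).1 ?_
      (fun q s hs => Vl_sub_le T3A IOP h q hs n) k ht
    refine sm_mono h.wt (D_sm T3A h).1 fun q => ?_
    rw [Real.norm_of_nonneg (D_nn T3A h q),
      Real.norm_of_nonneg (sub_nonneg.2 (d_le T3A h n q))]
    linarith [(maj_prop T3A h n).dn q]
  exact tendsto_nhds_unique h2 h1

end

end Pool.Agent.BOX.H96
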